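import Pool.Agent.Helper32.UBD.Rot1

/-!
# Gaussian moments: expansions with nonnegative coefficients
-/

set_option autoImplicit false

namespace Pool.Agent.UBD

open Finset

/-- Moments of a standard Gaussian variable. -/
noncomputable def gG : ℕ → ℝ
  | 0 => 1
  | 1 => 0
  | (n + 2) => (n + 1) * gG n

lemma gG_zero : gG 0 = 1 := by rw [gG]
lemma gG_one : gG 1 = 0 := by rw [gG]
lemma gG_add_two (n : ℕ) : gG (n + 2) = (n + 1) * gG n := by rw [gG]

lemma gG_succ (n : ℕ) : gG (n + 1) = n * gG (n - 1) := by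
  rcases n with _ | n
  · simp [gG_one]
  · rw [gG_add_two, Nat.add_sub_cancel]; push_cast; ring

lemma gG_nonneg : ∀ n, 0 ≤ gG n := by
  intro n
  induction n using Nat.strong_induction_on with
  | _ n ih =>
    rcases n with _ | _ | n
    · rw [gG_zero]; norm_num
    · rw [gG_one]
    · rw [gG_add_two]; exact mul_nonneg (by positivity) (ih n (by omega))

lemma gG_even_pos (m : ℕ) : 0 < gG (2 * m) := by
  induction m with
  | zero => rw [mul_zero, gG_zero]; norm_num
  | succ m ih =>
    rw [show 2 * (m + 1) = 2 * m + 2 by ring, gG_add_two]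
    exact mul_pos (by positivity) ih

/-- Coefficients of the moments as polynomials in the correlation. -/
noncomputable def gc : ℕ → ℕ → ℕ → ℝ
  | 0, 0, j => if j = 0 then 1 else 0
  | 0, 1, _ => 0
  | 0, (s + 2), j => (s + 1) * gc 0 s j
  | (r + 1), s, j => r * gc (r - 1) s j + s * (if j = 0 then 0 else gc r (s - 1) (j - 1))
termination_by r s _ => (r, s)

lemma gc_zero_zero (j : ℕ) : gc 0 0 j = if j = 0 then 1 else 0 := by rw [gc]
lemma gc_zero_one (j : ℕ) : gc 0 1 j = 0 := by rw [gc]
lemma gc_zero_add_two (s j : ℕ) : gc 0 (s + 2) j = (s + 1) * gc 0 s j := by rw [gc]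
lemma gc_succ (r s j : ℕ) : gc (r + 1) s j =
    r * gc (r - 1) s j + s * (if j = 0 then 0 else gc r (s - 1) (j - 1)) := by rw [gc]

lemma gc_nonneg : ∀ n r s j : ℕ, r + s = n → 0 ≤ gc r s j := by
  intro n
  induction n using Nat.strong_induction_on with
  | _ n ih =>
    intro r s j hrs
    rcases r with _ | r
    · rcases s with _ | _ | s
      · rw [gc_zero_zero]; split_ifs <;> norm_num
      · rw [gc_zero_one]
      · rw [gc_zero_add_two]; exact mul_nonneg (by positivity) (ih s (by omega) 0 s j (by omega))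
    · rw [gc_succ]
      refine add_nonneg (mul_nonneg (by positivity) (ih (r - 1 + s) (by omega) _ _ _ rfl))
        (mul_nonneg (by positivity) ?_)
      split_ifs
      · exact le_refl _
      · exact ih (r + (s - 1)) (by omega) _ _ _ rfl

/-- parity and range of the coefficients -/
lemma gc_eq_zero : ∀ n r s j : ℕ, r + s = n → (r < j ∨ j % 2 ≠ r % 2) → gc r s j = 0 := by
  intro n
  induction n using Nat.strong_induction_on with
  | _ n ih =>
    intro r s j hrs hj
    rcases r with _ | r
    · rcases s with _ | _ | s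
      · rw [gc_zero_zero, if_neg]
        omega
      · exact gc_zero_one j
      · rw [gc_zero_add_two, ih s (by omega) 0 s j (by omega) hj, mul_zero]
    · rw [gc_succ]
      have h1 : (r : ℝ) * gc (r - 1) s j = 0 := by
        rcases r with _ | r
        · simp
        · rw [Nat.add_sub_cancel, ih (r + s) (by omega) r s j rfl (by omega), mul_zero]
      have h2 : (s : ℝ) * (if j = 0 then 0 else gc r (s - 1) (j - 1)) = 0 := by
        rcases s with _ | s
        · simp
        · split_ifs with h0
          · simp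
          · rw [Nat.add_sub_cancel, ih (r + s) (by omega) r s (j - 1) rfl (by omega), mul_zero]
      rw [h1, h2, add_zero]

lemma gM_eq_sum : ∀ n r s N : ℕ, ∀ R : ℝ, r + s = n → r ≤ N →
    gM R r s = ∑ j ∈ range (N + 1), gc r s j * R ^ j := by
  intro n
  induction n using Nat.strong_induction_on with
  | _ n ih =>
    intro r s N R hrs hN
    rcases r with _ | r
    · rcases s with _ | _ | s
      · rw [gM_zero_zero, Finset.sum_range_succ']
        simp [gc_zero_zero]
      · rw [gM_zero_one]
        simp [gc_zero_one]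
      · rw [gM_zero_add_two, ih s (by omega) 0 s N R (by omega) hN, Finset.mul_sum]
        refine Finset.sum_congr rfl fun j _ => ?_
        rw [gc_zero_add_two]; ring
    · rw [gM_succ]
      obtain ⟨M, rfl⟩ : ∃ M, N = M + 1 := ⟨N - 1, by omega⟩
      have h1 : (r : ℝ) * gM R (r - 1) s =
          ∑ j ∈ range (M + 1 + 1), r * gc (r - 1) s j * R ^ j := by
        rcases r with _ | r
        · simp
        · rw [Nat.add_sub_cancel, ih (r + s) (by omega) r s (M + 1) R rfl (by omega),
            Finset.mul_sum]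
          exact Finset.sum_congr rfl fun j _ => by ring
      have h2 : (s : ℝ) * R * gM R r (s - 1) =
          ∑ j ∈ range (M + 1 + 1), s * (if j = 0 then 0 else gc r (s - 1) (j - 1)) * R ^ j := by
        rw [Finset.sum_range_succ' _ (M + 1)]
        simp only [if_true, mul_zero, zero_mul, add_zero, Nat.add_eq_zero_iff, one_ne_zero,
          and_false, if_false, Nat.add_sub_cancel]
        rcases s with _ | s
        · simp
        · rw [Nat.add_sub_cancel, ih (r + s) (by omega) r s M R rfl (by omega), Finset.mul_sum]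
          exact Finset.sum_congr rfl fun j _ => by ring
      rw [h1, h2, ← Finset.sum_add_distrib]
      refine Finset.sum_congr rfl fun j _ => ?_
      rw [gc_succ]; ring

/-- At correlation one. -/
lemma gM_one : ∀ n r s : ℕ, r + s = n → gM 1 r s = gG n := by
  intro n
  induction n using Nat.strong_induction_on with
  | _ n ih =>
    intro r s hrs
    rcases r with _ | r
    · rcases s with _ | _ | s
      · subst hrs
        rw [gM_zero_zero]; simp [gG_zero]
      · subst hrs
        rw [gM_zero_one]; simp [gG_one]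
      · rw [gM_zero_add_two, ih s (by omega) 0 s (by omega)]
        have : n = s + 2 := by omega
        rw [this, gG_add_two]
    · rw [gM_succ]
      have h1 : (r : ℝ) * gM 1 (r - 1) s = r * gG (r + s - 1) := by
        rcases r with _ | r
        · simp
        · rw [Nat.add_sub_cancel, ih (r + s) (by omega) r s rfl]
          congr 2; omega
      have h2 : (s : ℝ) * 1 * gM 1 r (s - 1) = s * gG (r + s - 1) := by
        rcases s with _ | s
        · simp
        · rw [Nat.add_sub_cancel, ih (r + s) (by omega) r s rfl, mul_one]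
          rfl
      rw [h1, h2]
      have : n = (r + s) + 1 := by omega
      rw [this, gG_succ]
      push_cast
      ring

/-- The constant coefficient. -/
lemma gc_coeff_zero : ∀ n r s : ℕ, r + s = n → gc r s 0 = gG r * gG s := by
  intro n
  induction n using Nat.strong_induction_on with
  | _ n ih =>
    intro r s hrs
    rcases r with _ | r
    · rcases s with _ | _ | s
      · rw [gc_zero_zero]; simp [gG_zero]
      · rw [gc_zero_one]; simp [gG_one]
      · rw [gc_zero_add_two, ih s (by omega) 0 s (by omega), gG_add_two]; ring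
    · rw [gc_succ, if_pos rfl, mul_zero, add_zero, gG_succ]
      rcases r with _ | r
      · simp
      · rw [Nat.add_sub_cancel, ih (r + s) (by omega) r s rfl]; ring

/-- The linear coefficient. -/
lemma gc_coeff_one : ∀ n r s : ℕ, r + s = n → gc r s 1 = gG (r + 1) * gG (s + 1) := by
  intro n
  induction n using Nat.strong_induction_on with
  | _ n ih =>
    intro r s hrs
    rcases r with _ | r
    · rw [zero_add, gG_one, zero_mul]
      exact gc_eq_zero n 0 s 1 hrs (Or.inl (by norm_num))
    · rw [gc_succ, if_neg one_ne_zero]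
      have h1 : (r : ℝ) * gc (r - 1) s 1 = r * (gG r * gG (s + 1)) := by
        rcases r with _ | r
        · simp
        · rw [Nat.add_sub_cancel, ih (r + s) (by omega) r s rfl]
      have h2 : (s : ℝ) * gc r (s - 1) (1 - 1) = gG r * gG (s + 1) := by
        rcases s with _ | s
        · simp [gG_one]
        · rw [Nat.add_sub_cancel, Nat.sub_self, gc_coeff_zero (r + s) r s rfl, gG_add_two]
          push_cast; ring
      rw [h1, h2, gG_add_two]
      ring

/-- Covariances of even powers are at most quadratic in the correlation. -/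
theorem gM_even_le (R : ℝ) (hR : |R| ≤ 1) (r s : ℕ) (hr : Even r) :
    gM R r s - gG r * gG s ≤ R ^ 2 * gG (r + s) := by
  have h1 := gM_eq_sum (r + s) r s r R rfl le_rfl
  have h2 := gM_eq_sum (r + s) r s r 1 rfl le_rfl
  rw [gM_one (r + s) r s rfl] at h2
  rw [h1, h2, Finset.mul_sum]
  have h3 : ∑ j ∈ range (r + 1), gc r s j * R ^ j - gG r * gG s =
      ∑ j ∈ range (r + 1), (gc r s j * R ^ j - if j = 0 then gG r * gG s else 0) := by
    rw [Finset.sum_sub_distrib]
    congr 1
    rw [Finset.sum_ite_eq' (range (r + 1)) 0]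
    simp
  rw [h3]
  have hR2 : R ^ 2 ≤ 1 := by
    rw [← sq_abs]
    have := abs_nonneg R
    nlinarith
  refine Finset.sum_le_sum fun j _ => ?_
  rw [one_pow, mul_one]
  rcases Nat.eq_zero_or_pos j with hj | hj
  · subst hj
    rw [if_pos rfl, gc_coeff_zero (r + s) r s rfl, pow_zero, mul_one, sub_self]
    exact mul_nonneg (sq_nonneg _) (mul_nonneg (gG_nonneg _) (gG_nonneg _))
  · rw [if_neg (by omega), sub_zero]
    by_cases ho : j % 2 = 0
    · obtain ⟨m, hm⟩ : ∃ m, j = 2 * m + 2 := ⟨j / 2 - 1, by omega⟩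
      have h4 : R ^ j ≤ R ^ 2 := by
        rw [hm, pow_add, pow_mul]
        have : (R ^ 2) ^ m ≤ 1 := pow_le_one₀ (sq_nonneg R) hR2
        nlinarith [sq_nonneg R]
      have h5 := gc_nonneg (r + s) r s j rfl
      nlinarith
    · rw [gc_eq_zero (r + s) r s j rfl (Or.inr ?_)]
      · simp
      · obtain ⟨m, hm⟩ := hr
        omega

/-- The expansion of the covariance of the odd power. -/
theorem gM_odd_expansion (p : ℕ) (hp : Odd p) :
    ∃ κ : ℕ → ℝ, (∀ j, 0 ≤ κ j) ∧ (∀ j, κ j ≠ 0 → Odd j ∧ 3 ≤ j ∧ j ≤ p) ∧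
      (∀ R : ℝ, gM R p p = gG (p + 1) ^ 2 * (R + ∑ j ∈ range (p + 1), κ j * R ^ j)) ∧
      1 + ∑ j ∈ range (p + 1), κ j = gG (2 * p) / gG (p + 1) ^ 2 := by
  obtain ⟨m, hm⟩ := hp
  have hpos : 0 < gG (p + 1) := by
    rw [show p + 1 = 2 * (m + 1) by omega]; exact gG_even_pos _
  have hpos2 : 0 < gG (p + 1) ^ 2 := by positivity
  refine ⟨fun j => if j = 1 then 0 else gc p p j / gG (p + 1) ^ 2, ?_, ?_, ?_, ?_⟩
  · intro j
    dsimp only
    split_ifs
    · exact le_refl _
    · exact div_nonneg (gc_nonneg (p + p) p p j rfl) hpos2.le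
  · intro j hj
    dsimp only at hj
    split_ifs at hj with h1
    · exact absurd rfl hj
    · by_contra hcon
      apply hj
      rw [gc_eq_zero (p + p) p p j rfl, zero_div]
      by_cases h2 : p < j
      · exact Or.inl h2
      · right
        intro h3
        apply hcon
        refine ⟨?_, ?_, by omega⟩
        · rw [Nat.odd_iff]; omega
        · omega
  · intro R
    have h1 := gM_eq_sum (p + p) p p p R rfl le_rfl
    rw [h1]
    have h2 : R = ∑ j ∈ range (p + 1), (if j = 1 then R ^ j else 0) := by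
      rw [Finset.sum_ite_eq' (range (p + 1)) 1, if_pos (Finset.mem_range.mpr (by omega)), pow_one]
    conv_rhs => rw [show R + ∑ j ∈ range (p + 1), (if j = 1 then 0 else gc p p j / gG (p + 1) ^ 2) *
      R ^ j = (∑ j ∈ range (p + 1), (if j = 1 then R ^ j else 0)) + ∑ j ∈ range (p + 1),
        (if j = 1 then 0 else gc p p j / gG (p + 1) ^ 2) * R ^ j by rw [← h2]]
    rw [← Finset.sum_add_distrib, Finset.mul_sum]
    refine Finset.sum_congr rfl fun j _ => ?_
    by_cases hj : j = 1
    · subst hj
      rw [if_pos rfl, if_pos rfl, gc_coeff_one (p + p) p p rfl]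
      ring
    · rw [if_neg hj, if_neg hj]
      field_simp
      ring
  · have h1 := gM_eq_sum (p + p) p p p 1 rfl le_rfl
    rw [gM_one (p + p) p p rfl] at h1
    have h2 : (1 : ℝ) = ∑ j ∈ range (p + 1), (if j = 1 then (1 : ℝ) else 0) := by
      rw [Finset.sum_ite_eq' (range (p + 1)) 1, if_pos (Finset.mem_range.mpr (by omega))]
    rw [show 1 + ∑ j ∈ range (p + 1), (if j = 1 then 0 else gc p p j / gG (p + 1) ^ 2) =
      (∑ j ∈ range (p + 1), (if j = 1 then (1 : ℝ) else 0)) + ∑ j ∈ range (p + 1),
        (if j = 1 then 0 else gc p p j / gG (p + 1) ^ 2) by rw [← h2]]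
    rw [← Finset.sum_add_distrib, eq_div_iff hpos2.ne', Finset.sum_mul, two_mul, h1]
    refine Finset.sum_congr rfl fun j _ => ?_
    by_cases hj : j = 1
    · subst hj
      rw [if_pos rfl, if_pos rfl, gc_coeff_one (p + p) p p rfl]
      ring
    · rw [if_neg hj, if_neg hj, one_pow, mul_one, zero_add]
      field_simp

/-- The constant `K1`. -/
theorem gG_ratio_le (p : ℕ) (hp : Odd p) : gG (2 * p) / gG (p + 1) ^ 2 ≤ 2 ^ p := by
  obtain ⟨m, rfl⟩ := hp
  induction m with
  | zero =>
    have h2 : gG 2 = 1 := by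
      have := gG_add_two 0
      rw [gG_zero] at this
      simpa using this
    show gG 2 / gG 2 ^ 2 ≤ 2 ^ 1
    rw [h2]
    norm_num
  | succ m ih =>
    have e1 : 2 * (2 * (m + 1) + 1) = (2 * (2 * m + 1)) + 2 + 2 := by ring
    have e2 : 2 * (m + 1) + 1 + 1 = (2 * m + 1 + 1) + 2 := by ring
    have hpos : 0 < gG (2 * m + 1 + 1) := by
      rw [show 2 * m + 1 + 1 = 2 * (m + 1) by omega]; exact gG_even_pos _
    rw [e1, e2, gG_add_two, gG_add_two, gG_add_two]
    set G := gG (2 * m + 1 + 1)
    set H := gG (2 * (2 * m + 1))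
    have hH : H / G ^ 2 ≤ 2 ^ (2 * m + 1) := ih
    have hH0 : 0 ≤ H := gG_nonneg _
    have e3 : (2 : ℝ) ^ (2 * (m + 1) + 1) = 4 * 2 ^ (2 * m + 1) := by
      rw [show 2 * (m + 1) + 1 = (2 * m + 1) + 2 by ring, pow_add]; norm_num; ring
    rw [e3]
    push_cast
    rw [div_le_iff₀ (by positivity)] at hH ⊢
    have hm : (0 : ℝ) ≤ m := Nat.cast_nonneg m
    have h4 : (2 * (2 * (m : ℝ) + 1) + 2 + 1) * (2 * (2 * m + 1) + 1) ≤
        4 * (2 * (m : ℝ) + 1 + 1 + 1) ^ 2 := by nlinarith
    have h5 : ((2 * (2 * (m : ℝ) + 1) + 2 + 1) * (2 * (2 * m + 1) + 1)) * H ≤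
        4 * (2 * (m : ℝ) + 1 + 1 + 1) ^ 2 * (2 ^ (2 * m + 1) * G ^ 2) := by
      refine mul_le_mul h4 hH hH0 (by positivity)
    calc (2 * (2 * (m : ℝ) + 1) + 2 + 1) * ((2 * (2 * m + 1) + 1) * H)
        = ((2 * (2 * (m : ℝ) + 1) + 2 + 1) * (2 * (2 * m + 1) + 1)) * H := by ring
      _ ≤ _ := h5
      _ = _ := by ring

end Pool.Agent.UBD
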