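import Pool.Agent.Helper32.UBD.Rot4

/-!
# Rotation designs: the final statement
-/

set_option autoImplicit false
set_option linter.unusedSectionVars false

namespace Pool.Agent.UBD

open MeasureTheory Matrix

/-- For finite families of unit vectors there is a finitely supported probability on the
orthogonal group with the same moments (up to a given order) as a uniformly random rotation. -/
theorem exists_rotation_design {w : ℕ} (hw : 1 ≤ w) {I J : Type} [Fintype I] [Fintype J]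
    (a : I → Fin w → ℝ) (b : J → Fin w → ℝ) (ha : ∀ i, a i ⬝ᵥ a i = 1)
    (hb : ∀ j, b j ⬝ᵥ b j = 1) (N : ℕ) :
    ∃ (k : ℕ) (p : Fin k → ℝ) (Q : Fin k → Matrix (Fin w) (Fin w) ℝ),
      (∀ t, 0 ≤ p t) ∧ ∑ t, p t = 1 ∧ (∀ t, Q t * (Q t)ᵀ = 1) ∧
      (∀ i i' j r s, r ≤ N → s ≤ N →
        ∑ t, p t * ((Real.sqrt w * (a i ⬝ᵥ (Q t).mulVec (b j))) ^ r *
          (Real.sqrt w * (a i' ⬝ᵥ (Q t).mulVec (b j))) ^ s)
          = gM (a i ⬝ᵥ a i') r s * mf w ((r + s) / 2)) ∧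
      (∀ i j j' r s, r ≤ N → s ≤ N →
        ∑ t, p t * ((Real.sqrt w * (a i ⬝ᵥ (Q t).mulVec (b j))) ^ r *
          (Real.sqrt w * (a i ⬝ᵥ (Q t).mulVec (b j'))) ^ s)
          = gM (b j ⬝ᵥ b j') r s * mf w ((r + s) / 2)) := by
  classical
  let Φ : OG w → ((I × I × J × Fin (N + 1) × Fin (N + 1)) ⊕
      (I × J × J × Fin (N + 1) × Fin (N + 1))) → ℝ := fun Q x =>
    match x with
    | Sum.inl (i, i', j, r, s) =>
      (Real.sqrt w * (a i ⬝ᵥ Q.mat.mulVec (b j))) ^ (r : ℕ) *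
          (Real.sqrt w * (a i' ⬝ᵥ Q.mat.mulVec (b j))) ^ (s : ℕ)
    | Sum.inr (i, j, j', r, s) =>
      (Real.sqrt w * (a i ⬝ᵥ Q.mat.mulVec (b j))) ^ (r : ℕ) *
          (Real.sqrt w * (a i ⬝ᵥ Q.mat.mulVec (b j'))) ^ (s : ℕ)
  have hc : ∀ (x : Fin w → ℝ) (y : Fin w → ℝ),
      Continuous fun Q : OG w => x ⬝ᵥ Q.mat.mulVec y := fun x y =>
    (continuous_dot x).comp (OG.continuous_mat.matrix_mulVec continuous_const)
  have hΦ : Continuous Φ := by
    refine continuous_pi fun x => ?_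
    rcases x with ⟨i, i', j, r, s⟩ | ⟨i, j, j', r, s⟩
    · exact ((continuous_const.mul (hc (a i) (b j))).pow _).mul
        ((continuous_const.mul (hc (a i') (b j))).pow _)
    · exact ((continuous_const.mul (hc (a i) (b j))).pow _).mul
        ((continuous_const.mul (hc (a i) (b j'))).pow _)
  obtain ⟨k, p, Q, hp0, hp1, hpQ⟩ := exists_finite_design Φ hΦ
  refine ⟨k, p, fun t => (Q t).mat, hp0, hp1, fun t => (Q t).mul_transpose, ?_, ?_⟩
  · intro i i' j r s hr hs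
    have h1 := hpQ (Sum.inl (i, i', j, ⟨r, by omega⟩, ⟨s, by omega⟩))
    have h2 := Jm_formula hw (rotInv_left (b j) (hb j)) (a i) (a i') (ha i) (ha i') (r + s) r s rfl
    exact h1.trans h2
  · intro i j j' r s hr hs
    have h1 := hpQ (Sum.inr (i, j, j', ⟨r, by omega⟩, ⟨s, by omega⟩))
    have h2 := Jm_formula hw (rotInv_right (a i) (ha i)) (b j) (b j') (hb j) (hb j') (r + s) r s rfl
    refine h1.trans (Eq.trans ?_ h2)
    unfold Jm
    congr 1
    funext q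
    have e : ∀ y : Fin w → ℝ, a i ⬝ᵥ q.mat.mulVec y = y ⬝ᵥ q.matᵀ.mulVec (a i) := by
      intro y
      rw [Matrix.dotProduct_mulVec, ← Matrix.mulVec_transpose, dotProduct_comm]
    show (Real.sqrt w * (a i ⬝ᵥ q.mat.mulVec (b j))) ^ r *
          (Real.sqrt w * (a i ⬝ᵥ q.mat.mulVec (b j'))) ^ s = _
    rw [e, e]

end Pool.Agent.UBD
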