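import Mathlib

/-!
# Moments of a rotation invariant random unit vector
-/

set_option autoImplicit false

namespace Pool.Agent.UBD

open MeasureTheory Matrix

/-- Joint moments `E X^r Y^s` of two standard Gaussian variables with correlation `R`. -/
noncomputable def gM (R : ℝ) : ℕ → ℕ → ℝ
  | 0, 0 => 1
  | 0, 1 => 0
  | 0, (s + 2) => (s + 1) * gM R 0 s
  | (r + 1), s => r * gM R (r - 1) s + s * R * gM R r (s - 1)
termination_by r s => (r, s)

lemma gM_zero_zero (R : ℝ) : gM R 0 0 = 1 := by rw [gM]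

lemma gM_zero_one (R : ℝ) : gM R 0 1 = 0 := by rw [gM]

lemma gM_zero_add_two (R : ℝ) (s : ℕ) : gM R 0 (s + 2) = (s + 1) * gM R 0 s := by rw [gM]

lemma gM_succ (R : ℝ) (r s : ℕ) :
    gM R (r + 1) s = r * gM R (r - 1) s + s * R * gM R r (s - 1) := by rw [gM]

/-- Ratio of sphere moments and Gaussian moments. -/
noncomputable def mf (w j : ℕ) : ℝ := ∏ i ∈ Finset.range j, ((w : ℝ) / (w + 2 * i))

section

attribute [local instance] Matrix.linftyOpNormedRing Matrix.linftyOpNormedAlgebra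

variable {w : ℕ} {Ω : Type*} [MeasurableSpace Ω] {P : Measure Ω} [IsProbabilityMeasure P]
  {ω : Ω → Fin w → ℝ}

/-- `ω` is a rotation invariant random unit vector. -/
structure RotInv (P : Measure Ω) (ω : Ω → Fin w → ℝ) : Prop where
  meas : Measurable ω
  norm : ∀ q, ω q ⬝ᵥ ω q = 1
  inv : ∀ R : Matrix (Fin w) (Fin w) ℝ, R * Rᵀ = 1 → ∀ G : (Fin w → ℝ) → ℝ, Continuous G →
    ∫ q, G (R.mulVec (ω q)) ∂P = ∫ q, G (ω q) ∂P

lemma exp_skew_orth {A : Matrix (Fin w) (Fin w) ℝ} (hA : Aᵀ = -A) (t : ℝ) :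
    NormedSpace.exp (t • A) * (NormedSpace.exp (t • A))ᵀ = 1 := by
  rw [← Matrix.exp_transpose, Matrix.transpose_smul, hA, smul_neg, Matrix.exp_neg,
    Matrix.mul_nonsing_inv]
  exact (Matrix.isUnit_exp _).map Matrix.detMonoidHom

lemma exp_path (A : Matrix (Fin w) (Fin w) ℝ) (x : Fin w → ℝ) (t : ℝ) (i : Fin w) :
    HasDerivAt (fun u : ℝ => (NormedSpace.exp (u • A)).mulVec x i)
      (A.mulVec ((NormedSpace.exp (t • A)).mulVec x) i) t := by
  have h := hasDerivAt_exp_smul_const' (𝕂 := ℝ) A t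
  let L : Matrix (Fin w) (Fin w) ℝ →ₗ[ℝ] ℝ :=
    { toFun := fun M => M.mulVec x i
      map_add' := fun M N => by rw [Matrix.add_mulVec]; rfl
      map_smul' := fun c M => by rw [Matrix.smul_mulVec]; rfl }
  have h2 := (LinearMap.toContinuousLinearMap L).hasFDerivAt.comp_hasDerivAt t h
  have e : (A.mulVec ((NormedSpace.exp (t • A)).mulVec x) i)
      = LinearMap.toContinuousLinearMap L (A * NormedSpace.exp (t • A)) := by
    show _ = (A * NormedSpace.exp (t • A)).mulVec x i
    rw [Matrix.mulVec_mulVec]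
  rw [e]
  exact h2

lemma dot_mulVec_orth {R : Matrix (Fin w) (Fin w) ℝ} (hR : R * Rᵀ = 1) (x : Fin w → ℝ) :
    R.mulVec x ⬝ᵥ R.mulVec x = x ⬝ᵥ x := by
  have hR' : Rᵀ * R = 1 := mul_eq_one_comm.mp hR
  rw [Matrix.dotProduct_mulVec, ← Matrix.mulVec_transpose, Matrix.mulVec_mulVec, hR',
    Matrix.one_mulVec]

lemma sphere_bound {H : (Fin w → ℝ) → ℝ} (hH : Continuous H) :
    ∃ C : ℝ, ∀ x : Fin w → ℝ, x ⬝ᵥ x = 1 → |H x| ≤ C := by
  have hc : IsCompact {x : Fin w → ℝ | x ⬝ᵥ x = 1} := by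
    refine IsCompact.of_isClosed_subset (isCompact_univ_pi (fun _ : Fin w =>
      (isCompact_Icc : IsCompact (Set.Icc (-1 : ℝ) 1)))) ?_ ?_
    · exact isClosed_eq (by unfold dotProduct; fun_prop) continuous_const
    · intro x hx i _
      have h1 : x i * x i ≤ 1 := by
        have hx' : ∑ j, x j * x j = 1 := hx
        rw [← hx']
        exact Finset.single_le_sum (f := fun j => x j * x j) (fun j _ => mul_self_nonneg _)
          (Finset.mem_univ i)
      constructor <;> nlinarith
  obtain ⟨C, hC⟩ := hc.exists_bound_of_continuousOn hH.continuousOn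
  exact ⟨C, fun x hx => hC x hx⟩

lemma RotInv.integrable (h : RotInv P ω) {H : (Fin w → ℝ) → ℝ} (hH : Continuous H) :
    Integrable (fun q => H (ω q)) P := by
  obtain ⟨C, hC⟩ := sphere_bound hH
  exact Integrable.of_bound (hH.measurable.comp h.meas).aestronglyMeasurable C
    (Filter.Eventually.of_forall fun q => hC _ (h.norm q))

/-- Infinitesimal rotation invariance. -/
lemma RotInv.deriv (h : RotInv P ω) {A : Matrix (Fin w) (Fin w) ℝ} (hA : Aᵀ = -A)
    {G H : (Fin w → ℝ) → ℝ} (hG : Continuous G) (hH : Continuous H)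
    (hGH : ∀ x t, HasDerivAt (fun u : ℝ => G ((NormedSpace.exp (u • A)).mulVec x))
      (H ((NormedSpace.exp (t • A)).mulVec x)) t) :
    ∫ q, H (ω q) ∂P = 0 := by
  obtain ⟨C, hC⟩ := sphere_bound hH
  have hcont : ∀ u : ℝ, Continuous (fun x : Fin w → ℝ => (NormedSpace.exp (u • A)).mulVec x) :=
    fun u => Continuous.matrix_mulVec continuous_const continuous_id
  have key := hasDerivAt_integral_of_dominated_loc_of_deriv_le (μ := P)
    (F := fun u q => G ((NormedSpace.exp (u • A)).mulVec (ω q)))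
    (F' := fun u q => H ((NormedSpace.exp (u • A)).mulVec (ω q)))
    (x₀ := (0 : ℝ)) (s := Set.univ) (bound := fun _ => C) Filter.univ_mem
    (Filter.Eventually.of_forall fun u =>
      (((hG.comp (hcont u)).measurable.comp h.meas).aestronglyMeasurable))
    (by
      have := h.integrable (hG.comp (hcont 0))
      exact this)
    (((hH.comp (hcont 0)).measurable.comp h.meas).aestronglyMeasurable)
    (Filter.Eventually.of_forall fun q u _ => by
      rw [Real.norm_eq_abs]
      refine hC _ ?_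
      rw [dot_mulVec_orth (exp_skew_orth hA u)]
      exact h.norm q)
    (integrable_const C)
    (Filter.Eventually.of_forall fun q u _ => hGH (ω q) u)
  have h1 := key.2
  have h2 : (fun u : ℝ => ∫ q, G ((NormedSpace.exp (u • A)).mulVec (ω q)) ∂P) =
      fun _ => ∫ q, G (ω q) ∂P := by
    funext u
    exact h.inv _ (exp_skew_orth hA u) G hG
  rw [h2] at h1
  have h3 := h1.unique (hasDerivAt_const (0 : ℝ) (∫ q, G (ω q) ∂P))
  simpa using h3

end

end Pool.Agent.UBD
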