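import Pool.Agent.Helper32.UBD.Rot1

/-!
# The recursion for the moments of a rotation invariant random unit vector
-/

set_option autoImplicit false

namespace Pool.Agent.UBD

open MeasureTheory Matrix

section

attribute [local instance] Matrix.linftyOpNormedRing Matrix.linftyOpNormedAlgebra

variable {w : ℕ} {Ω : Type*} [MeasurableSpace Ω] {P : Measure Ω} [IsProbabilityMeasure P]
  {ω : Ω → Fin w → ℝ}

/-- The skew matrix `a e_k^T - e_k a^T`. -/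
def skewM (a : Fin w → ℝ) (k : Fin w) : Matrix (Fin w) (Fin w) ℝ :=
  Matrix.of fun i j => a i * (if j = k then 1 else 0) - (if i = k then 1 else 0) * a j

lemma skewM_transpose (a : Fin w → ℝ) (k : Fin w) : (skewM a k)ᵀ = -skewM a k := by
  ext i j
  simp only [skewM, Matrix.transpose_apply, Matrix.of_apply, Matrix.neg_apply]
  ring

lemma skewM_mulVec (a : Fin w → ℝ) (k : Fin w) (x : Fin w → ℝ) (i : Fin w) :
    (skewM a k).mulVec x i = a i * x k - (if i = k then 1 else 0) * (a ⬝ᵥ x) := by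
  simp only [skewM, Matrix.mulVec, dotProduct, Matrix.of_apply, sub_mul, Finset.sum_sub_distrib,
    mul_ite, mul_one, mul_zero, ite_mul, zero_mul, one_mul, Finset.sum_ite_eq', Finset.mem_univ,
    if_true]
  congr 1
  split_ifs <;> simp

lemma dot_skewM_mulVec (a b : Fin w → ℝ) (k : Fin w) (x : Fin w → ℝ) :
    b ⬝ᵥ (skewM a k).mulVec x = (b ⬝ᵥ a) * x k - b k * (a ⬝ᵥ x) := by
  have : b ⬝ᵥ (skewM a k).mulVec x
      = ∑ i, b i * (a i * x k - (if i = k then 1 else 0) * (a ⬝ᵥ x)) := by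
    unfold dotProduct
    refine Finset.sum_congr rfl fun i _ => ?_
    rw [skewM_mulVec]
    rfl
  rw [this]
  simp only [mul_sub, Finset.sum_sub_distrib, ite_mul, one_mul, zero_mul, mul_ite, mul_zero,
    Finset.sum_ite_eq', Finset.mem_univ, if_true]
  congr 1
  rw [dotProduct, Finset.sum_mul]
  refine Finset.sum_congr rfl fun i _ => by ring

/-- The derivative of the test function. -/
def Hk (a b : Fin w → ℝ) (r s : ℕ) (k : Fin w) (x : Fin w → ℝ) : ℝ :=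
  (a k * x k - (a ⬝ᵥ x)) * ((a ⬝ᵥ x) ^ r * (b ⬝ᵥ x) ^ s) +
    x k * ((r * (a ⬝ᵥ x) ^ (r - 1) * ((a ⬝ᵥ a) * x k - a k * (a ⬝ᵥ x))) * (b ⬝ᵥ x) ^ s +
      (a ⬝ᵥ x) ^ r * (s * (b ⬝ᵥ x) ^ (s - 1) * ((b ⬝ᵥ a) * x k - b k * (a ⬝ᵥ x))))

lemma continuous_dot (a : Fin w → ℝ) : Continuous fun x : Fin w → ℝ => a ⬝ᵥ x := by
  unfold dotProduct
  fun_prop

lemma continuous_Hk (a b : Fin w → ℝ) (r s : ℕ) (k : Fin w) : Continuous (Hk a b r s k) := by
  unfold Hk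
  have h1 := continuous_dot a
  have h2 := continuous_dot b
  fun_prop

lemma integral_Hk (h : RotInv P ω) (a b : Fin w → ℝ) (r s : ℕ) (k : Fin w) :
    ∫ q, Hk a b r s k (ω q) ∂P = 0 := by
  have ha := continuous_dot a
  have hb := continuous_dot b
  refine h.deriv (skewM_transpose a k) (G := fun x => x k * ((a ⬝ᵥ x) ^ r * (b ⬝ᵥ x) ^ s))
    (by fun_prop) (continuous_Hk a b r s k) ?_
  intro x t
  set A := skewM a k with hA
  have h1 : ∀ i, HasDerivAt (fun u : ℝ => (NormedSpace.exp (u • A)).mulVec x i)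
      (A.mulVec ((NormedSpace.exp (t • A)).mulVec x) i) t := exp_path A x t
  have hdot : ∀ c : Fin w → ℝ, HasDerivAt
      (fun u : ℝ => c ⬝ᵥ (NormedSpace.exp (u • A)).mulVec x)
      (c ⬝ᵥ A.mulVec ((NormedSpace.exp (t • A)).mulVec x)) t := by
    intro c
    unfold dotProduct
    exact HasDerivAt.fun_sum fun i _ => (h1 i).const_mul (c i)
  have h2 := ((hdot a).pow r).mul ((hdot b).pow s)
  have h3 := (h1 k).mul h2
  refine h3.congr_deriv ?_
  set y := (NormedSpace.exp (t • A)).mulVec x with hy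
  simp only [Hk, Pi.pow_apply, Pi.mul_apply]
  rw [hA, dot_skewM_mulVec, dot_skewM_mulVec, skewM_mulVec, if_pos rfl]
  ring

lemma sum_Hk (a b : Fin w → ℝ) (r s : ℕ) (x : Fin w → ℝ) (hx : x ⬝ᵥ x = 1) :
    ∑ k, Hk a b r s k x = - ((w : ℝ) - 1 + r + s) * ((a ⬝ᵥ x) ^ (r + 1) * (b ⬝ᵥ x) ^ s) +
      r * (a ⬝ᵥ a) * ((a ⬝ᵥ x) ^ (r - 1) * (b ⬝ᵥ x) ^ s) +
      s * (b ⬝ᵥ a) * ((a ⬝ᵥ x) ^ r * (b ⬝ᵥ x) ^ (s - 1)) := by
  have e1 : ∑ k, x k * x k = 1 := hx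
  have e2 : ∑ k, a k * x k = a ⬝ᵥ x := rfl
  have e3 : ∑ k, b k * x k = b ⬝ᵥ x := rfl
  set u := a ⬝ᵥ x with hu
  set v := b ⬝ᵥ x with hv
  have hs : ∑ k, Hk a b r s k x = ∑ k, (
      (a k * x k) * (u ^ r * v ^ s - r * u ^ (r - 1) * u * v ^ s) + - (u * (u ^ r * v ^ s)) +
      (x k * x k) * (r * u ^ (r - 1) * (a ⬝ᵥ a) * v ^ s + u ^ r * (s * v ^ (s - 1) * (b ⬝ᵥ a))) +
      (b k * x k) * (- (u ^ r * (s * v ^ (s - 1) * u)))) := by
    refine Finset.sum_congr rfl fun k _ => ?_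
    unfold Hk
    rw [← hu, ← hv]
    ring
  rw [hs]
  simp only [Finset.sum_add_distrib, ← Finset.sum_mul, e1, e2, e3, Finset.sum_const,
    Finset.card_univ, Fintype.card_fin, nsmul_eq_mul]
  have hr : (r : ℝ) * u ^ (r - 1) * u = r * u ^ r := by
    rcases r with _ | r
    · simp
    · rw [Nat.add_sub_cancel, pow_succ]; ring
  have hs' : (s : ℝ) * v ^ (s - 1) * v = s * v ^ s := by
    rcases s with _ | s
    · simp
    · rw [Nat.add_sub_cancel, pow_succ]; ring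
  have f1 : u * (u ^ r * v ^ s - r * u ^ (r - 1) * u * v ^ s)
      = u ^ (r + 1) * v ^ s - r * (u ^ (r + 1) * v ^ s) := by
    have : u * (u ^ r * v ^ s - r * u ^ (r - 1) * u * v ^ s)
      = u * (u ^ r * v ^ s - (r * u ^ (r - 1) * u) * v ^ s) := by ring
    rw [this, hr]
    ring
  have f2 : v * -(u ^ r * (s * v ^ (s - 1) * u)) = - (s * (u ^ (r + 1) * v ^ s)) := by
    have : v * -(u ^ r * (s * v ^ (s - 1) * u)) = -(u ^ r * ((s * v ^ (s - 1) * v) * u)) := by ring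
    rw [this, hs']
    ring
  rw [f1, f2]
  ring

/-- The moment recursion. -/
lemma moment_rec (h : RotInv P ω) (a b : Fin w → ℝ) (r s : ℕ) :
    ((w : ℝ) - 1 + r + s) * ∫ q, (a ⬝ᵥ ω q) ^ (r + 1) * (b ⬝ᵥ ω q) ^ s ∂P =
      r * (a ⬝ᵥ a) * ∫ q, (a ⬝ᵥ ω q) ^ (r - 1) * (b ⬝ᵥ ω q) ^ s ∂P +
      s * (b ⬝ᵥ a) * ∫ q, (a ⬝ᵥ ω q) ^ r * (b ⬝ᵥ ω q) ^ (s - 1) ∂P := by
  have ha := continuous_dot a
  have hb := continuous_dot b
  have hint : ∀ m n : ℕ, Integrable (fun q => (a ⬝ᵥ ω q) ^ m * (b ⬝ᵥ ω q) ^ n) P := by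
    intro m n
    exact h.integrable (H := fun x => (a ⬝ᵥ x) ^ m * (b ⬝ᵥ x) ^ n) (by fun_prop)
  have h0 : ∑ k, ∫ q, Hk a b r s k (ω q) ∂P = 0 :=
    Finset.sum_eq_zero fun k _ => integral_Hk h a b r s k
  rw [← integral_finsetSum _ (fun k _ => h.integrable (continuous_Hk a b r s k))] at h0
  have h1 : (fun q => ∑ k, Hk a b r s k (ω q)) = fun q =>
      - ((w : ℝ) - 1 + r + s) * ((a ⬝ᵥ ω q) ^ (r + 1) * (b ⬝ᵥ ω q) ^ s) +
      r * (a ⬝ᵥ a) * ((a ⬝ᵥ ω q) ^ (r - 1) * (b ⬝ᵥ ω q) ^ s) +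
      s * (b ⬝ᵥ a) * ((a ⬝ᵥ ω q) ^ r * (b ⬝ᵥ ω q) ^ (s - 1)) := by
    funext q
    exact sum_Hk a b r s (ω q) (h.norm q)
  rw [h1, integral_add, integral_add, integral_const_mul, integral_const_mul,
    integral_const_mul] at h0
  · linarith
  · exact (hint _ _).const_mul _
  · exact (hint _ _).const_mul _
  · exact ((hint _ _).const_mul _).add ((hint _ _).const_mul _)
  · exact (hint _ _).const_mul _

end

end Pool.Agent.UBD
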