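import Pool.Agent.Helper32.UBD.Rot2

/-!
# Explicit moments of a rotation invariant random unit vector
-/

set_option autoImplicit false
set_option linter.unusedSectionVars false

namespace Pool.Agent.UBD

open MeasureTheory Matrix

section

variable {w : ℕ} {Ω : Type*} [MeasurableSpace Ω] {P : Measure Ω} [IsProbabilityMeasure P]
  {ω : Ω → Fin w → ℝ}

lemma gM_odd (R : ℝ) : ∀ n r s : ℕ, r + s = n → Odd n → gM R r s = 0 := by
  intro n
  induction n using Nat.strong_induction_on with
  | _ n ih =>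
    intro r s hrs hn
    rcases r with _ | r
    · rcases s with _ | _ | s
      · simp only [add_zero] at hrs
        subst hrs
        exact absurd hn (by decide)
      · exact gM_zero_one R
      · rw [gM_zero_add_two, ih s (by omega) 0 s (by omega) ?_, mul_zero]
        rw [Nat.odd_iff] at hn ⊢
        omega
    · rw [gM_succ]
      have h1 : (r : ℝ) * gM R (r - 1) s = 0 := by
        rcases r with _ | r
        · simp
        · rw [Nat.add_sub_cancel, ih (r + s) (by omega) r s rfl ?_, mul_zero]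
          rw [Nat.odd_iff] at hn ⊢
          omega
      have h2 : (s : ℝ) * R * gM R r (s - 1) = 0 := by
        rcases s with _ | s
        · simp
        · rw [Nat.add_sub_cancel, ih (r + s) (by omega) r s rfl ?_, mul_zero]
          rw [Nat.odd_iff] at hn ⊢
          omega
      rw [h1, h2, add_zero]

lemma mf_succ (w j : ℕ) : mf w (j + 1) = mf w j * ((w : ℝ) / (w + 2 * j)) := by
  unfold mf
  rw [Finset.prod_range_succ]

lemma mf_zero (w : ℕ) : mf w 0 = 1 := by simp [mf]

/-- scaled moments -/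
noncomputable def Jm (P : Measure Ω) (ω : Ω → Fin w → ℝ) (a b : Fin w → ℝ) (r s : ℕ) : ℝ :=
  ∫ q, (Real.sqrt w * (a ⬝ᵥ ω q)) ^ r * (Real.sqrt w * (b ⬝ᵥ ω q)) ^ s ∂P

lemma Jm_eq (a b : Fin w → ℝ) (r s : ℕ) :
    Jm P ω a b r s = Real.sqrt w ^ (r + s) * ∫ q, (a ⬝ᵥ ω q) ^ r * (b ⬝ᵥ ω q) ^ s ∂P := by
  unfold Jm
  rw [← integral_const_mul]
  congr 1
  funext q
  rw [mul_pow, mul_pow, pow_add]
  ring

lemma Jm_zero (a b : Fin w → ℝ) : Jm P ω a b 0 0 = 1 := by
  simp [Jm]

lemma Jm_rec (h : RotInv P ω) (a b : Fin w → ℝ) (ha : a ⬝ᵥ a = 1) (r s : ℕ) :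
    ((w : ℝ) - 1 + r + s) * Jm P ω a b (r + 1) s =
      w * (r * Jm P ω a b (r - 1) s + s * (a ⬝ᵥ b) * Jm P ω a b r (s - 1)) := by
  have h1 := moment_rec h a b r s
  rw [ha, mul_one, dotProduct_comm b a] at h1
  have hw : Real.sqrt w * Real.sqrt w = w := Real.mul_self_sqrt (Nat.cast_nonneg w)
  rw [Jm_eq, mul_left_comm, h1, mul_add, mul_add]
  congr 1
  · rcases r with _ | r
    · simp
    · rw [Jm_eq, Nat.add_sub_cancel]
      have e : r + 1 + 1 + s = (r + s) + 2 := by omega
      rw [e, pow_add, pow_two, hw]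
      ring
  · rcases s with _ | s
    · simp
    · rw [Jm_eq, Nat.add_sub_cancel]
      have e : r + 1 + (s + 1) = (r + s) + 2 := by omega
      rw [e, pow_add, pow_two, hw]
      ring

lemma Jm_swap (a b : Fin w → ℝ) (r s : ℕ) : Jm P ω a b r s = Jm P ω b a s r := by
  unfold Jm
  congr 1
  funext q
  ring

lemma Jm_odd (h : RotInv P ω) (a b : Fin w → ℝ) (r s : ℕ) (ho : Odd (r + s)) :
    Jm P ω a b r s = 0 := by
  have ha := continuous_dot a
  have hb := continuous_dot b
  have h1 := h.inv (-1 : Matrix (Fin w) (Fin w) ℝ) (by simp)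
    (fun x => (Real.sqrt w * (a ⬝ᵥ x)) ^ r * (Real.sqrt w * (b ⬝ᵥ x)) ^ s) (by fun_prop)
  have h2 : ∀ x : Fin w → ℝ, (Real.sqrt w * (a ⬝ᵥ (-1 : Matrix (Fin w) (Fin w) ℝ).mulVec x)) ^ r *
      (Real.sqrt w * (b ⬝ᵥ (-1 : Matrix (Fin w) (Fin w) ℝ).mulVec x)) ^ s =
      - ((Real.sqrt w * (a ⬝ᵥ x)) ^ r * (Real.sqrt w * (b ⬝ᵥ x)) ^ s) := by
    intro x
    have e : (-1 : Matrix (Fin w) (Fin w) ℝ).mulVec x = -x := by
      rw [Matrix.neg_mulVec, Matrix.one_mulVec]
    rw [e, dotProduct_neg, dotProduct_neg]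
    have e1 : (Real.sqrt w * -(a ⬝ᵥ x)) ^ r = (-1) ^ r * (Real.sqrt w * (a ⬝ᵥ x)) ^ r := by
      rw [← mul_pow]; congr 1; ring
    have e2 : (Real.sqrt w * -(b ⬝ᵥ x)) ^ s = (-1) ^ s * (Real.sqrt w * (b ⬝ᵥ x)) ^ s := by
      rw [← mul_pow]; congr 1; ring
    rw [e1, e2]
    have e3 : (-1 : ℝ) ^ r * (-1) ^ s = -1 := by rw [← pow_add, ho.neg_one_pow]
    linear_combination (Real.sqrt w * (a ⬝ᵥ x)) ^ r * (Real.sqrt w * (b ⬝ᵥ x)) ^ s * e3
  simp only [h2, integral_neg] at h1
  unfold Jm
  linarith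

/-- The moments of a rotation invariant random unit vector. -/
theorem Jm_formula (hw : 1 ≤ w) (h : RotInv P ω) (a b : Fin w → ℝ) (ha : a ⬝ᵥ a = 1)
    (hb : b ⬝ᵥ b = 1) : ∀ n r s : ℕ, r + s = n →
      Jm P ω a b r s = gM (a ⬝ᵥ b) r s * mf w (n / 2) := by
  have hw' : (1 : ℝ) ≤ w := by exact_mod_cast hw
  intro n
  induction n using Nat.strong_induction_on with
  | _ n ih =>
    intro r s hrs
    -- the general step, from the recursion
    rcases r with _ | r
    · rcases s with _ | _ | s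
      · subst hrs
        rw [Jm_zero, gM_zero_zero]
        simp [mf_zero]
      · rw [Jm_odd h a b 0 _ (by decide), gM_zero_one, zero_mul]
      · have h1 := Jm_rec h b a hb (s + 1) 0
        rw [Jm_swap, gM_zero_add_two]
        rw [Nat.add_sub_cancel, Jm_swap b a s 0, ih s (by omega) 0 s (by omega)] at h1
        have e : n / 2 = s / 2 + 1 := by omega
        rw [e, mf_succ]
        by_cases ho : Odd s
        · rw [gM_odd _ s 0 s (by omega) ho, mul_zero, zero_mul]
          have := Jm_odd h b a (s + 1 + 1) 0 (by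
            rw [Nat.odd_iff] at ho ⊢
            omega)
          exact this
        · rw [Nat.not_odd_iff_even] at ho
          obtain ⟨m, hm⟩ := ho
          have e2 : s / 2 = m := by omega
          rw [e2] at h1 ⊢
          have hs : (s : ℝ) = m + m := by rw [hm]; push_cast; ring
          have hm0 : (0 : ℝ) ≤ m := Nat.cast_nonneg m
          have hne : (w : ℝ) + 2 * m ≠ 0 := by positivity
          push_cast at h1
          have h2 : (w : ℝ) - 1 + (s + 1) + 0 = w + 2 * m := by rw [hs]; ring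
          rw [h2] at h1
          have h3 : Jm P ω b a (s + 1 + 1) 0 =
              w * ((s + 1) * (gM (a ⬝ᵥ b) 0 s * mf w m)) / ((w : ℝ) + 2 * m) := by
            rw [eq_div_iff hne, mul_comm, h1]
            ring
          rw [h3]
          ring
    · have h1 := Jm_rec h a b ha r s
      have hr : (r : ℝ) * Jm P ω a b (r - 1) s =
          r * (gM (a ⬝ᵥ b) (r - 1) s * mf w ((r + s - 1) / 2)) := by
        rcases r with _ | r
        · simp
        · rw [ih (r + s) (by omega) (r + 1 - 1) s (by omega)]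
          congr 4
          omega
      have hs : (s : ℝ) * (a ⬝ᵥ b) * Jm P ω a b r (s - 1) =
          s * (a ⬝ᵥ b) * (gM (a ⬝ᵥ b) r (s - 1) * mf w ((r + s - 1) / 2)) := by
        rcases s with _ | s
        · simp
        · rw [ih (r + s) (by omega) r (s + 1 - 1) (by omega)]
          congr 4
      rw [hr, hs] at h1
      have h2 : (w : ℝ) * (r * (gM (a ⬝ᵥ b) (r - 1) s * mf w ((r + s - 1) / 2)) +
          s * (a ⬝ᵥ b) * (gM (a ⬝ᵥ b) r (s - 1) * mf w ((r + s - 1) / 2)))
          = w * (gM (a ⬝ᵥ b) (r + 1) s * mf w ((r + s - 1) / 2)) := by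
        rw [gM_succ]; ring
      rw [h2] at h1
      have hr0 : (0 : ℝ) ≤ r := Nat.cast_nonneg r
      have hs0 : (0 : ℝ) ≤ s := Nat.cast_nonneg s
      by_cases ho : Odd n
      · rw [gM_odd _ n (r + 1) s hrs ho, zero_mul]
        exact Jm_odd h a b (r + 1) s (by rw [hrs]; exact ho)
      · rw [Nat.not_odd_iff_even] at ho
        obtain ⟨m, hm⟩ := ho
        obtain ⟨j, rfl⟩ : ∃ j, m = j + 1 := ⟨m - 1, by omega⟩
        have e1 : n / 2 = j + 1 := by omega
        have e2 : (r + s - 1) / 2 = j := by omega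
        rw [e1, mf_succ]
        rw [e2] at h1
        have hj : (r : ℝ) + s = 2 * j + 1 := by
          have : r + s = 2 * j + 1 := by omega
          exact_mod_cast this
        have h3 : (w : ℝ) - 1 + r + s = w + 2 * j := by linarith
        have hj0 : (0 : ℝ) ≤ j := Nat.cast_nonneg j
        have hne : (w : ℝ) + 2 * j ≠ 0 := by
          have : (0 : ℝ) < (w : ℝ) + 2 * j := by linarith
          exact this.ne'
        rw [h3] at h1
        have h4 : Jm P ω a b (r + 1) s =
            w * (gM (a ⬝ᵥ b) (r + 1) s * mf w j) / ((w : ℝ) + 2 * j) := by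
          rw [eq_div_iff hne, mul_comm, h1]
        rw [h4]
        ring

end

end Pool.Agent.UBD
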