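import Pool.Agent.Helper32.UBD.Rot3

/-!
# Finitely supported rotation designs
-/

set_option autoImplicit false
set_option linter.unusedSectionVars false

namespace Pool.Agent.UBD

open MeasureTheory Matrix

/-- The orthogonal group. -/
def OG (w : ℕ) : Type := unitary (Matrix (Fin w) (Fin w) ℝ)

section

variable {w : ℕ}

noncomputable instance : Group (OG w) :=
  inferInstanceAs (Group (unitary (Matrix (Fin w) (Fin w) ℝ)))

noncomputable instance : TopologicalSpace (OG w) :=
  inferInstanceAs (TopologicalSpace (unitary (Matrix (Fin w) (Fin w) ℝ)))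

instance : IsTopologicalGroup (OG w) :=
  inferInstanceAs (IsTopologicalGroup (unitary (Matrix (Fin w) (Fin w) ℝ)))

noncomputable instance : MeasurableSpace (OG w) := borel _

instance : BorelSpace (OG w) := ⟨rfl⟩

instance : SecondCountableTopology (Matrix (Fin w) (Fin w) ℝ) :=
  inferInstanceAs (SecondCountableTopology (Fin w → Fin w → ℝ))

instance : SecondCountableTopology (OG w) :=
  TopologicalSpace.Subtype.secondCountableTopology
    (unitary (Matrix (Fin w) (Fin w) ℝ) : Set (Matrix (Fin w) (Fin w) ℝ))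

instance : T2Space (OG w) :=
  inferInstanceAs (T2Space (Subtype fun x : Matrix (Fin w) (Fin w) ℝ => x ∈ unitary _))

/-- The underlying matrix. -/
def OG.mat (k : OG w) : Matrix (Fin w) (Fin w) ℝ := k.1

lemma OG.mat_mul (k l : OG w) : (k * l).mat = k.mat * l.mat := rfl

lemma OG.mul_transpose (k : OG w) : k.mat * k.mat.transpose = 1 := by
  have := (Unitary.mem_iff.mp k.2).2
  rwa [Matrix.star_eq_conjTranspose, Matrix.conjTranspose_eq_transpose_of_trivial] at this

lemma OG.transpose_mul (k : OG w) : k.mat.transpose * k.mat = 1 := by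
  have := (Unitary.mem_iff.mp k.2).1
  rwa [Matrix.star_eq_conjTranspose, Matrix.conjTranspose_eq_transpose_of_trivial] at this

lemma OG.continuous_mat : Continuous (OG.mat : OG w → Matrix (Fin w) (Fin w) ℝ) :=
  continuous_subtype_val

/-- Constructor. -/
def OG.mk' (r : Matrix (Fin w) (Fin w) ℝ) (h : r * r.transpose = 1) : OG w :=
  ⟨r, by
    rw [Unitary.mem_iff, Matrix.star_eq_conjTranspose,
      Matrix.conjTranspose_eq_transpose_of_trivial]
    exact ⟨mul_eq_one_comm.mp h, h⟩⟩

@[simp] lemma OG.mk'_mat (r : Matrix (Fin w) (Fin w) ℝ) (h : r * r.transpose = 1) :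
    (OG.mk' r h).mat = r := rfl

instance : CompactSpace (OG w) := by
  have h1 : IsClosed (unitary (Matrix (Fin w) (Fin w) ℝ) : Set (Matrix (Fin w) (Fin w) ℝ)) :=
    isClosed_unitary
  have h2 : IsCompact (Set.pi Set.univ (fun _ : Fin w => Set.pi Set.univ
      (fun _ : Fin w => Set.Icc (-1 : ℝ) 1)) : Set (Fin w → Fin w → ℝ)) :=
    isCompact_univ_pi fun _ => isCompact_univ_pi fun _ => isCompact_Icc
  have h3 : (unitary (Matrix (Fin w) (Fin w) ℝ) : Set (Matrix (Fin w) (Fin w) ℝ)) ⊆
      (Set.pi Set.univ (fun _ : Fin w => Set.pi Set.univ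
      (fun _ : Fin w => Set.Icc (-1 : ℝ) 1)) : Set (Fin w → Fin w → ℝ)) := by
    intro x hx a _ b _
    have := entry_norm_bound_of_unitary (𝕜 := ℝ) (U := x) hx a b
    rw [Real.norm_eq_abs, abs_le] at this
    exact this
  have h4 : IsCompact (unitary (Matrix (Fin w) (Fin w) ℝ) : Set (Matrix (Fin w) (Fin w) ℝ)) :=
    IsCompact.of_isClosed_subset h2 h1 h3
  exact isCompact_iff_compactSpace.mp h4

/-- Haar probability measure on the orthogonal group. -/
noncomputable def hp (w : ℕ) : Measure (OG w) := Measure.haarMeasure ⊤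

instance : IsProbabilityMeasure (hp w) := by
  constructor
  have := Measure.haarMeasure_self (K₀ := (⊤ : TopologicalSpace.PositiveCompacts (OG w)))
  change (Measure.haarMeasure ⊤ : Measure (OG w)) Set.univ = 1
  simpa using this

instance : (hp w).IsHaarMeasure :=
  inferInstanceAs (Measure.IsHaarMeasure (Measure.haarMeasure ⊤))

instance : (hp w).IsMulRightInvariant := by
  constructor
  intro g
  have h1 : IsProbabilityMeasure (Measure.map (· * g) (hp w)) :=
    Measure.isProbabilityMeasure_map (continuous_mul_const g).measurable.aemeasurable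
  exact Measure.isHaarMeasure_eq_of_isProbabilityMeasure _ _

lemma rotInv_left (b : Fin w → ℝ) (hb : b ⬝ᵥ b = 1) :
    RotInv (hp w) (fun Q => Q.mat.mulVec b) where
  meas := by
    have : Continuous fun Q : OG w => Q.mat.mulVec b :=
      OG.continuous_mat.matrix_mulVec continuous_const
    exact this.measurable
  norm := fun Q => by rw [dot_mulVec_orth Q.mul_transpose, hb]
  inv := fun R hR G hG => by
    have h := integral_mul_left_eq_self (μ := hp w) (fun Q => G (Q.mat.mulVec b)) (OG.mk' R hR)
    rw [← h]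
    congr 1
    funext Q
    rw [OG.mat_mul, OG.mk'_mat, Matrix.mulVec_mulVec]

lemma rotInv_right (a : Fin w → ℝ) (ha : a ⬝ᵥ a = 1) :
    RotInv (hp w) (fun Q => Q.matᵀ.mulVec a) where
  meas := by
    have : Continuous fun Q : OG w => Q.matᵀ.mulVec a :=
      OG.continuous_mat.matrix_transpose.matrix_mulVec continuous_const
    exact this.measurable
  norm := fun Q => by
    have h : Q.matᵀ * (Q.matᵀ)ᵀ = 1 := by rw [Matrix.transpose_transpose]; exact Q.transpose_mul
    rw [dot_mulVec_orth h, ha]
  inv := fun R hR G hG => by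
    have hR' : Rᵀ * Rᵀᵀ = 1 := by rw [Matrix.transpose_transpose]; exact mul_eq_one_comm.mp hR
    have h := integral_mul_right_eq_self (μ := hp w) (fun Q => G (Q.matᵀ.mulVec a))
      (OG.mk' Rᵀ hR')
    rw [← h]
    congr 1
    funext Q
    rw [OG.mat_mul, OG.mk'_mat, Matrix.transpose_mul, Matrix.transpose_transpose,
      Matrix.mulVec_mulVec]

/-- The convex hull of a compact set is compact (Carathéodory). -/
theorem isCompact_convexHull_pi {ι : Type*} [Fintype ι] {s : Set (ι → ℝ)} (hs : IsCompact s) :
    IsCompact (convexHull ℝ s) := by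
  set d := Fintype.card ι + 1 with hd
  have himg : convexHull ℝ s =
      (fun q : (Fin d → ℝ) × (Fin d → (ι → ℝ)) => ∑ i, q.1 i • q.2 i) ''
      (stdSimplex ℝ (Fin d) ×ˢ (Set.univ.pi fun _ => s)) := by
    apply Set.Subset.antisymm
    · intro x hx
      obtain ⟨κ, hκ, z, w, hz, hai, hw0, hw1, hx⟩ := eq_pos_convex_span_of_mem_convexHull hx
      have hcard : Fintype.card κ ≤ Fintype.card (Fin d) := by
        have h1 := hai.card_le_finrank_succ
        have h2 : Module.finrank ℝ (vectorSpan ℝ (Set.range z)) ≤ Module.finrank ℝ (ι → ℝ) :=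
          Submodule.finrank_le _
        have h3 : Module.finrank ℝ (ι → ℝ) = Fintype.card ι := Module.finrank_fintype_fun_eq_card ℝ
        rw [Fintype.card_fin]
        omega
      obtain ⟨e⟩ := Function.Embedding.nonempty_of_card_le hcard
      have hne : Nonempty κ := by
        by_contra h
        rw [not_nonempty_iff] at h
        rw [Fintype.sum_empty] at hw1
        exact zero_ne_one hw1
      obtain ⟨i₀⟩ := hne
      have hew : ∀ i, Function.extend e w 0 (e i) = w i := fun i => e.injective.extend_apply _ _ _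
      have hez : ∀ i, Function.extend e z (fun _ => z i₀) (e i) = z i :=
        fun i => e.injective.extend_apply _ _ _
      have hw' : ∀ j ∉ Set.range e, Function.extend e w 0 j = 0 := fun j hj =>
        Function.extend_apply' _ _ _ (fun ⟨i, hi⟩ => hj ⟨i, hi⟩)
      refine ⟨(Function.extend e w 0, Function.extend e z (fun _ => z i₀)), ⟨⟨?_, ?_⟩, ?_⟩, ?_⟩
      · intro j
        by_cases hj : j ∈ Set.range e
        · obtain ⟨i, rfl⟩ := hj
          change 0 ≤ Function.extend e w 0 (e i)
          rw [hew]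
          exact (hw0 i).le
        · exact (hw' j hj).ge
      · change ∑ j, Function.extend e w 0 j = 1
        rw [← hw1]
        exact (Fintype.sum_of_injective e e.injective w _ hw' (fun i => (hew i).symm)).symm
      · intro j _
        change Function.extend e z (fun _ => z i₀) j ∈ s
        by_cases hj : j ∈ Set.range e
        · obtain ⟨i, rfl⟩ := hj
          rw [hez]
          exact hz ⟨i, rfl⟩
        · rw [Function.extend_apply' _ _ _ (fun ⟨i, hi⟩ => hj ⟨i, hi⟩)]
          exact hz ⟨i₀, rfl⟩
      · beta_reduce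
        rw [← hx]
        refine (Fintype.sum_of_injective e e.injective _ _ (fun j hj => ?_) (fun i => ?_)).symm
        · dsimp only
          rw [hw' j hj, zero_smul]
        · dsimp only
          rw [hew, hez]
    · rintro x ⟨⟨w, z⟩, ⟨⟨hw0, hw1⟩, hz⟩, rfl⟩
      exact (convex_convexHull ℝ s).sum_mem (fun i _ => hw0 i) hw1
        (fun i _ => subset_convexHull ℝ s (hz i (Set.mem_univ i)))
  rw [himg]
  exact ((isCompact_stdSimplex ℝ (Fin d)).prod (isCompact_univ_pi fun _ => hs)).image
    (by fun_prop)

/-- A finitely supported probability on the orthogonal group with prescribed integrals. -/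
theorem exists_finite_design {ι : Type*} [Fintype ι] (Φ : OG w → ι → ℝ) (hΦ : Continuous Φ) :
    ∃ (k : ℕ) (p : Fin k → ℝ) (Q : Fin k → OG w), (∀ t, 0 ≤ p t) ∧ ∑ t, p t = 1 ∧
      ∀ i, ∑ t, p t * Φ (Q t) i = ∫ q, Φ q i ∂(hp w) := by
  have hcomp : IsCompact (Set.range Φ) := isCompact_range hΦ
  have hch := isCompact_convexHull_pi hcomp
  have hint : Integrable Φ (hp w) := by
    exact (hΦ.continuousOn.integrableOn_compact isCompact_univ).integrable_of_forall_notMem_eq_zero
      (fun x hx => absurd (Set.mem_univ x) hx)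
  have hmem : ∫ q, Φ q ∂(hp w) ∈ convexHull ℝ (Set.range Φ) := by
    refine (convex_convexHull ℝ _).integral_mem hch.isClosed ?_ hint
    exact Filter.Eventually.of_forall fun q => subset_convexHull ℝ _ ⟨q, rfl⟩
  obtain ⟨κ, hκ, z, p, hz, hai, hp0, hp1, hx⟩ := eq_pos_convex_span_of_mem_convexHull hmem
  choose Q hQ using fun i => hz ⟨i, rfl⟩
  obtain ⟨e⟩ : Nonempty (κ ≃ Fin (Fintype.card κ)) := ⟨Fintype.equivFin κ⟩
  refine ⟨Fintype.card κ, fun t => p (e.symm t), fun t => Q (e.symm t), fun t => (hp0 _).le, ?_, ?_⟩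
  · rw [← hp1]
    exact Equiv.sum_comp e.symm p
  · intro i
    have h1 : ∑ t, p (e.symm t) * Φ (Q (e.symm t)) i = ∑ t, p t * Φ (Q t) i :=
      Equiv.sum_comp e.symm (fun t => p t * Φ (Q t) i)
    rw [h1]
    have h2 : (∫ q, Φ q ∂(hp w)) i = ∫ q, Φ q i ∂(hp w) :=
      (eval_integral (fun j => (integrable_pi_iff.mp hint) j) i)
    rw [← h2, ← hx, Finset.sum_apply]
    refine Finset.sum_congr rfl fun t _ => ?_
    rw [Pi.smul_apply, smul_eq_mul, hQ]

end

end Pool.Agent.UBD
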